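import Pool.Agent.Q62.SP.Stm

/-! Project SP (helper62), job 32: the difference of two velocities. -/

set_option autoImplicit false

open MeasureTheory Set Filter Topology
open scoped ContDiff
open H459R3.NS (V pd Per cube)
open Pool.Agent.Q62.SP

namespace Pool.Agent.Q275.SP

theorem cube_compact : IsCompact cube := isCompact_Icc

theorem cube_fin : IsFiniteMeasure (volume.restrict cube) :=
  isFiniteMeasure_restrict.2 cube_compact.measure_lt_top.ne

theorem int_cube {f : V → ℝ} (hf : Continuous f) : IntegrableOn f cube :=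
  hf.continuousOn.integrableOn_compact cube_compact

theorem comp_c1 {f : V → V} (hf : ContDiff ℝ 1 f) (i : Fin 3) : ContDiff ℝ 1 (fun y => f y i) :=
  contDiff_pi.1 hf i

theorem l2_of_c1 {f : V → V} (hf : C1P f) : L2P f := by
  refine ⟨hf.per, fun i => ?_⟩
  haveI := cube_fin
  have hc : Continuous (fun x => f x i) := (comp_c1 hf.c1 i).continuous
  obtain ⟨C, hC⟩ := cube_compact.exists_bound_of_continuousOn hc.continuousOn
  refine MemLp.of_bound hc.aestronglyMeasurable C ?_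
  rw [ae_restrict_iff' cube_compact.measurableSet]
  exact Eventually.of_forall fun x hx => hC x hx

theorem cont_pd {g : V → ℝ} (hg : ContDiff ℝ 1 g) (j : Fin 3) : Continuous (fun x => pd j g x) :=
  (hg.continuous_fderiv one_ne_zero).clm_apply continuous_const

theorem pd_sub {g h : V → ℝ} (hg : ContDiff ℝ 1 g) (hh : ContDiff ℝ 1 h) (j : Fin 3) (x : V) :
    pd j (fun y => g y - h y) x = pd j g x - pd j h x := by
  unfold pd
  have h1 := (hg.differentiable one_ne_zero x).hasFDerivAt.sub (hh.differentiable one_ne_zero x).hasFDerivAt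
  have h2 : fderiv ℝ (fun y => g y - h y) x = _ := h1.fderiv
  rw [h2]
  rfl

theorem pd_add {g h : V → ℝ} (hg : ContDiff ℝ 1 g) (hh : ContDiff ℝ 1 h) (j : Fin 3) (x : V) :
    pd j (fun y => g y + h y) x = pd j g x + pd j h x := by
  unfold pd
  have h1 := (hg.differentiable one_ne_zero x).hasFDerivAt.add (hh.differentiable one_ne_zero x).hasFDerivAt
  have h2 : fderiv ℝ (fun y => g y + h y) x = _ := h1.fderiv
  rw [h2]
  rfl

theorem pd_mul {g h : V → ℝ} (hg : ContDiff ℝ 1 g) (hh : ContDiff ℝ 1 h) (j : Fin 3) (x : V) :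
    pd j (fun y => g y * h y) x = g x * pd j h x + h x * pd j g x := by
  unfold pd
  have h1 := (hg.differentiable one_ne_zero x).hasFDerivAt.mul (hh.differentiable one_ne_zero x).hasFDerivAt
  have h2 : fderiv ℝ (fun y => g y * h y) x = _ := h1.fderiv
  rw [h2]
  simp only [_root_.add_apply, _root_.smul_apply, smul_eq_mul]

/-- bilinear form with bounded coefficients -/
theorem bil (d0 d1 d2 L : ℝ) (M : Fin 3 → Fin 3 → ℝ) (hM : ∀ i j, |M i j| ≤ L) :
    -(d0 * d0 * M 0 0 + d0 * d1 * M 0 1 + d0 * d2 * M 0 2 + (d1 * d0 * M 1 0 + d1 * d1 * M 1 1 + d1 * d2 * M 1 2) +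
      (d2 * d0 * M 2 0 + d2 * d1 * M 2 1 + d2 * d2 * M 2 2)) ≤ 3 * L * (d0 ^ 2 + d1 ^ 2 + d2 ^ 2) := by
  have key : ∀ (s t : ℝ) (i j : Fin 3), -(s * t * M i j) ≤ L * ((s ^ 2 + t ^ 2) / 2) := by
    intro s t i j
    have h1 : -(s * t * M i j) ≤ |s * t * M i j| := neg_le_abs _
    have h2 : |s * t * M i j| = |s * t| * |M i j| := abs_mul _ _
    have h3 : |s * t| ≤ (s ^ 2 + t ^ 2) / 2 := by
      rw [abs_le]
      constructor
      · nlinarith [sq_nonneg (s + t)]
      · nlinarith [sq_nonneg (s - t)]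
    have h4 : |s * t| * |M i j| ≤ (s ^ 2 + t ^ 2) / 2 * L :=
      mul_le_mul h3 (hM i j) (abs_nonneg _) (by positivity)
    linarith
  have a1 := key d0 d0 0 0
  have a2 := key d0 d1 0 1
  have a3 := key d0 d2 0 2
  have b1 := key d1 d0 1 0
  have b2 := key d1 d1 1 1
  have b3 := key d1 d2 1 2
  have c1 := key d2 d0 2 0
  have c2 := key d2 d1 2 1
  have c3 := key d2 d2 2 2
  linarith

/-- Hadamard's inequality with a parameter -/
theorem had (d0 d1 d2 b0 b1 b2 w0 w1 w2 L η : ℝ) (hL : 0 ≤ L) (hη : 0 < η) (h0 : |w0| ≤ 2 * L)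
    (h1 : |w1| ≤ 2 * L) (h2 : |w2| ≤ 2 * L) :
    d0 * (b1 * w2 - b2 * w1) + d1 * (b2 * w0 - b0 * w2) + d2 * (b0 * w1 - b1 * w0) ≤
      4 * L * (η / 2 * (d0 ^ 2 + d1 ^ 2 + d2 ^ 2) + 1 / (2 * η) * (b0 ^ 2 + b1 ^ 2 + b2 ^ 2)) := by
  obtain ⟨X, hX⟩ : ∃ X, X = d0 ^ 2 + d1 ^ 2 + d2 ^ 2 := ⟨_, rfl⟩
  obtain ⟨Y, hY⟩ : ∃ Y, Y = b0 ^ 2 + b1 ^ 2 + b2 ^ 2 := ⟨_, rfl⟩
  obtain ⟨W, hW⟩ : ∃ W, W = w0 ^ 2 + w1 ^ 2 + w2 ^ 2 := ⟨_, rfl⟩
  have hX0 : 0 ≤ X := by rw [hX]; positivity
  have hY0 : 0 ≤ Y := by rw [hY]; positivity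
  have hWL : W ≤ 16 * L ^ 2 := by
    have e : ∀ w : ℝ, |w| ≤ 2 * L → w ^ 2 ≤ 4 * L ^ 2 := by
      intro w hw
      rw [← sq_abs]
      have := pow_le_pow_left₀ (abs_nonneg w) hw 2
      linarith
    have := e w0 h0
    have := e w1 h1
    have := e w2 h2
    rw [hW]
    nlinarith [sq_nonneg L]
  obtain ⟨c0, hc0⟩ : ∃ c, c = b1 * w2 - b2 * w1 := ⟨_, rfl⟩
  obtain ⟨c1, hc1⟩ : ∃ c, c = b2 * w0 - b0 * w2 := ⟨_, rfl⟩
  obtain ⟨c2, hc2⟩ : ∃ c, c = b0 * w1 - b1 * w0 := ⟨_, rfl⟩
  have e1 : (d0 * c0 + d1 * c1 + d2 * c2) ^ 2 ≤ X * (c0 ^ 2 + c1 ^ 2 + c2 ^ 2) := by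
    rw [hX]
    nlinarith [sq_nonneg (d0 * c1 - d1 * c0), sq_nonneg (d0 * c2 - d2 * c0), sq_nonneg (d1 * c2 - d2 * c1)]
  have e2 : c0 ^ 2 + c1 ^ 2 + c2 ^ 2 ≤ Y * W := by
    rw [hc0, hc1, hc2, hY, hW]
    nlinarith [sq_nonneg (b0 * w0 + b1 * w1 + b2 * w2)]
  have e3 : (d0 * c0 + d1 * c1 + d2 * c2) ^ 2 ≤ (4 * L * (η / 2 * X + 1 / (2 * η) * Y)) ^ 2 := by
    have f1 : X * Y ≤ (η / 2 * X + 1 / (2 * η) * Y) ^ 2 := by
      have f2 : (η / 2 * X + 1 / (2 * η) * Y) ^ 2 - X * Y = (η / 2 * X - 1 / (2 * η) * Y) ^ 2 := by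
        field_simp
        ring
      nlinarith [sq_nonneg (η / 2 * X - 1 / (2 * η) * Y)]
    calc (d0 * c0 + d1 * c1 + d2 * c2) ^ 2 ≤ X * (Y * W) := e1.trans (mul_le_mul_of_nonneg_left e2 hX0)
      _ = X * Y * W := by ring
      _ ≤ X * Y * (16 * L ^ 2) := mul_le_mul_of_nonneg_left hWL (mul_nonneg hX0 hY0)
      _ ≤ (η / 2 * X + 1 / (2 * η) * Y) ^ 2 * (16 * L ^ 2) := mul_le_mul_of_nonneg_right f1 (by positivity)
      _ = _ := by ring
  rw [← hc0, ← hc1, ← hc2, ← hX, ← hY]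
  exact le_of_abs_le (abs_le_of_sq_le_sq e3 (by positivity))

theorem t_TRI (hp1 : S_DIV) : S_TRI := by
  intro δ A hδ hA v v' hv hv' hdv hdv' q hq hqp L hL hL' D hD
  have hLn : 0 ≤ L := (abs_nonneg _).trans (hL 0 0 0)
  -- the difference
  obtain ⟨d, hd⟩ : ∃ d : V → V, d = fun x => v' x - v x := ⟨_, rfl⟩
  have hdx : ∀ x i, d x i = v' x i - v x i := fun x i => by rw [hd]; rfl
  have hdc : C1P d := by
    rw [hd]
    refine ⟨hv'.c1.sub hv.c1, fun i x => ?_⟩
    show v' (x + Pi.single i 1) - v (x + Pi.single i 1) = v' x - v x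
    rw [hv'.per, hv.per]
  have hci : ∀ i, ContDiff ℝ 1 (fun y => v y i) := fun i => comp_c1 hv.c1 i
  have hci' : ∀ i, ContDiff ℝ 1 (fun y => v' y i) := fun i => comp_c1 hv'.c1 i
  have hcd : ∀ i, ContDiff ℝ 1 (fun y => d y i) := fun i => comp_c1 hdc.c1 i
  have hpd : ∀ i j x, pd j (fun y => d y i) x = pd j (fun y => v' y i) x - pd j (fun y => v y i) x := by
    intro i j x
    have h1 : (fun y => d y i) = fun y => v' y i - v y i := by
      funext y
      exact hdx y i
    rw [h1]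
    exact pd_sub (hci' i) (hci i) j x
  have hdd : ∀ x, ∑ i, pd i (fun y => d y i) x = 0 := by
    intro x
    simp only [hpd, Finset.sum_sub_distrib]
    rw [hdv, hdv', sub_zero]
  -- the transport fields
  obtain ⟨a, ha⟩ : ∃ a : V → V, a = A v' := ⟨_, rfl⟩
  have hac : C1P a := by rw [ha]; exact hA.c1 v' hv'
  have hadv : ∀ x, ∑ i, pd i (fun y => a y i) x = 0 := by rw [ha]; exact hA.div v' hv'
  have hca : ∀ i, ContDiff ℝ 1 (fun y => a y i) := fun i => comp_c1 hac.c1 i
  have hag : ∀ x i j, |pd j (fun y => a y i) x| ≤ δ * L := by rw [ha]; exact hA.grad v' L hv' hL'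
  obtain ⟨b, hb⟩ : ∃ b : V → V, b = A d := ⟨_, rfl⟩
  have hbc : C1P b := by rw [hb]; exact hA.c1 d hdc
  have hcb : ∀ i, ContDiff ℝ 1 (fun y => b y i) := fun i => comp_c1 hbc.c1 i
  have hAv : ∀ x i, A v x i = a x i - b x i := by
    intro x i
    have h1 := hA.add d v (l2_of_c1 hdc) (l2_of_c1 hv)
    have h2 : (fun x => d x + v x) = v' := by
      rw [hd]
      funext x
      show v' x - v x + v x = v' x
      abel
    rw [h2] at h1
    have h3 := congrFun (congrFun h1 x) i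
    rw [ha, hb, h3]
    show A v x i = (A d x i + A v x i) - A d x i
    ring
  have hsmall : ip b b ≤ δ ^ 2 * ip d d := by rw [hb]; exact hA.small d (l2_of_c1 hdc)
  -- the scalar functions
  obtain ⟨g, hg⟩ : ∃ g : V → ℝ, g = fun x => (1 / 2) * (d x 0 * d x 0 + d x 1 * d x 1 + d x 2 * d x 2) := ⟨_, rfl⟩
  have hgc : ContDiff ℝ 1 g := by
    rw [hg]
    exact contDiff_const.mul ((((hcd 0).mul (hcd 0)).add ((hcd 1).mul (hcd 1))).add ((hcd 2).mul (hcd 2)))
  have hgp : Per g := by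
    intro i x
    rw [hg]
    show (1 / 2) * (d (x + Pi.single i 1) 0 * d (x + Pi.single i 1) 0 + d (x + Pi.single i 1) 1 * d (x + Pi.single i 1) 1 +
      d (x + Pi.single i 1) 2 * d (x + Pi.single i 1) 2) = _
    rw [hdc.per]
  have hgd : ∀ j x, pd j g x = d x 0 * pd j (fun y => d y 0) x + d x 1 * pd j (fun y => d y 1) x +
      d x 2 * pd j (fun y => d y 2) x := by
    intro j x
    have k1 := pd_mul (g := fun _ : V => (1 / 2 : ℝ)) (h := fun x => d x 0 * d x 0 + d x 1 * d x 1 + d x 2 * d x 2)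
      contDiff_const ((((hcd 0).mul (hcd 0)).add ((hcd 1).mul (hcd 1))).add ((hcd 2).mul (hcd 2))) j x
    have k2 := pd_add (g := fun x => d x 0 * d x 0 + d x 1 * d x 1) (h := fun x => d x 2 * d x 2)
      (((hcd 0).mul (hcd 0)).add ((hcd 1).mul (hcd 1))) ((hcd 2).mul (hcd 2)) j x
    have k3 := pd_add (g := fun x => d x 0 * d x 0) (h := fun x => d x 1 * d x 1)
      ((hcd 0).mul (hcd 0)) ((hcd 1).mul (hcd 1)) j x
    have k4 := pd_mul (hcd 0) (hcd 0) j x
    have k5 := pd_mul (hcd 1) (hcd 1) j x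
    have k6 := pd_mul (hcd 2) (hcd 2) j x
    have k7 : pd j (fun _ : V => (1 / 2 : ℝ)) x = 0 := by
      unfold pd
      rw [fderiv_fun_const]
      rfl
    rw [hg, k1, k2, k3, k4, k5, k6, k7]
    ring
  obtain ⟨h, hh⟩ : ∃ h : V → ℝ, h = fun x => a x 0 * d x 0 + a x 1 * d x 1 + a x 2 * d x 2 := ⟨_, rfl⟩
  have hhc : ContDiff ℝ 1 h := by
    rw [hh]
    exact (((hca 0).mul (hcd 0)).add ((hca 1).mul (hcd 1))).add ((hca 2).mul (hcd 2))
  have hhp : Per h := by
    intro i x
    rw [hh]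
    show a (x + Pi.single i 1) 0 * d (x + Pi.single i 1) 0 + a (x + Pi.single i 1) 1 * d (x + Pi.single i 1) 1 +
      a (x + Pi.single i 1) 2 * d (x + Pi.single i 1) 2 = _
    rw [hdc.per, hac.per]
  have hhd : ∀ j x, pd j h x = (a x 0 * pd j (fun y => d y 0) x + d x 0 * pd j (fun y => a y 0) x) +
      (a x 1 * pd j (fun y => d y 1) x + d x 1 * pd j (fun y => a y 1) x) +
      (a x 2 * pd j (fun y => d y 2) x + d x 2 * pd j (fun y => a y 2) x) := by
    intro j x
    have k2 := pd_add (g := fun x => a x 0 * d x 0 + a x 1 * d x 1) (h := fun x => a x 2 * d x 2)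
      (((hca 0).mul (hcd 0)).add ((hca 1).mul (hcd 1))) ((hca 2).mul (hcd 2)) j x
    have k3 := pd_add (g := fun x => a x 0 * d x 0) (h := fun x => a x 1 * d x 1)
      ((hca 0).mul (hcd 0)) ((hca 1).mul (hcd 1)) j x
    have k4 := pd_mul (hca 0) (hcd 0) j x
    have k5 := pd_mul (hca 1) (hcd 1) j x
    have k6 := pd_mul (hca 2) (hcd 2) j x
    rw [hh, k2, k3, k4, k5, k6]
  -- the vanishing integrals
  have z1 := hp1 v' g hv' hdv' hgc hgp
  have z2 := hp1 d q hdc hdd hq hqp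
  have z3 := hp1 d h hdc hdd hhc hhp
  have z4 := hp1 a g hac hadv hgc hgp
  -- continuity
  have cd : ∀ i, Continuous (fun x => d x i) := fun i => (hcd i).continuous
  have cb : ∀ i, Continuous (fun x => b x i) := fun i => (hcb i).continuous
  have cs : ∀ (u : V → V) (p : V → ℝ), C1P u → ContDiff ℝ 1 p → Continuous (fun x => ∑ i, u x i * pd i p x) := by
    intro u p hu hp
    exact continuous_finsetSum _ fun i _ => ((comp_c1 hu.c1 i).continuous).mul (cont_pd hp i)
  have i1 := int_cube (cs v' g hv' hgc)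
  have i2 := int_cube (cs d q hdc hq)
  have i3 := int_cube (cs d h hdc hhc)
  have i4 := int_cube (cs a g hac hgc)
  have cdd : Continuous (fun x => ∑ i, d x i * d x i) := continuous_finsetSum _ fun i _ => (cd i).mul (cd i)
  have cbb : Continuous (fun x => ∑ i, b x i * b x i) := continuous_finsetSum _ fun i _ => (cb i).mul (cb i)
  have i5 := int_cube cdd
  have i6 := int_cube cbb
  have hcurl : ∀ x, curl v x 0 = pd 1 (fun y => v y 2) x - pd 2 (fun y => v y 1) x ∧
      curl v x 1 = pd 2 (fun y => v y 0) x - pd 0 (fun y => v y 2) x ∧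
      curl v x 2 = pd 0 (fun y => v y 1) x - pd 1 (fun y => v y 0) x := fun x => ⟨rfl, rfl, rfl⟩
  have hcurl' : ∀ x, curl v' x 0 = pd 1 (fun y => v' y 2) x - pd 2 (fun y => v' y 1) x ∧
      curl v' x 1 = pd 2 (fun y => v' y 0) x - pd 0 (fun y => v' y 2) x ∧
      curl v' x 2 = pd 0 (fun y => v' y 1) x - pd 1 (fun y => v' y 0) x := fun x => ⟨rfl, rfl, rfl⟩
  have hcross : ∀ s t : V, crossProduct s t 0 = s 1 * t 2 - s 2 * t 1 ∧
      crossProduct s t 1 = s 2 * t 0 - s 0 * t 2 ∧ crossProduct s t 2 = s 0 * t 1 - s 1 * t 0 := by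
    intro s t
    rw [cross_apply]
    exact ⟨rfl, rfl, rfl⟩
  -- the pointwise inequality
  have point : ∀ η : ℝ, 0 < η → ∀ x, ∑ i, D x i * (v' x i - v x i) ≤
      -(∑ i, v' x i * pd i g x) - (∑ i, d x i * pd i q x) + (∑ i, d x i * pd i h x) - (∑ i, a x i * pd i g x) +
        ((3 + 3 * δ) * L + 2 * L * η) * (∑ i, d x i * d x i) + 2 * L / η * ∑ i, b x i * b x i := by
    intro η hη x
    obtain ⟨w0, w1, w2⟩ := hcurl x
    obtain ⟨w0', w1', w2'⟩ := hcurl' x
    obtain ⟨x0, x1, x2⟩ := hcross (A v' x) (curl v' x)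
    obtain ⟨y0, y1, y2⟩ := hcross (A v x) (curl v x)
    have bw : ∀ s t : ℝ, |s| ≤ L → |t| ≤ L → |s - t| ≤ 2 * L := by
      intro s t hs ht
      have := abs_sub s t
      linarith [abs_sub_abs_le_abs_sub s t, abs_add_le s (-t), abs_neg t, abs_sub_comm s t,
        (abs_sub s t)]
    have t2 := bil (d x 0) (d x 1) (d x 2) L (fun i j => pd j (fun y => v y i) x) (fun i j => hL x i j)
    have t4 := bil (d x 0) (d x 1) (d x 2) (δ * L) (fun i j => pd i (fun y => a y j) x) (fun i j => hag x j i)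
    have t5 := had (d x 0) (d x 1) (d x 2) (b x 0) (b x 1) (b x 2) (curl v x 0) (curl v x 1) (curl v x 2) L η hLn hη
      (by rw [w0]; exact bw _ _ (hL x 2 1) (hL x 1 2)) (by rw [w1]; exact bw _ _ (hL x 0 2) (hL x 2 0))
      (by rw [w2]; exact bw _ _ (hL x 1 0) (hL x 0 1))
    have e : ∑ i, D x i * (v' x i - v x i) =
        -(∑ i, v' x i * pd i g x) - (∑ i, d x i * pd i q x) + (∑ i, d x i * pd i h x) - (∑ i, a x i * pd i g x) +
        (-(d x 0 * d x 0 * pd 0 (fun y => v y 0) x + d x 0 * d x 1 * pd 1 (fun y => v y 0) x +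
            d x 0 * d x 2 * pd 2 (fun y => v y 0) x + (d x 1 * d x 0 * pd 0 (fun y => v y 1) x +
            d x 1 * d x 1 * pd 1 (fun y => v y 1) x + d x 1 * d x 2 * pd 2 (fun y => v y 1) x) +
            (d x 2 * d x 0 * pd 0 (fun y => v y 2) x + d x 2 * d x 1 * pd 1 (fun y => v y 2) x +
            d x 2 * d x 2 * pd 2 (fun y => v y 2) x))) +
        (-(d x 0 * d x 0 * pd 0 (fun y => a y 0) x + d x 0 * d x 1 * pd 0 (fun y => a y 1) x +
            d x 0 * d x 2 * pd 0 (fun y => a y 2) x + (d x 1 * d x 0 * pd 1 (fun y => a y 0) x +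
            d x 1 * d x 1 * pd 1 (fun y => a y 1) x + d x 1 * d x 2 * pd 1 (fun y => a y 2) x) +
            (d x 2 * d x 0 * pd 2 (fun y => a y 0) x + d x 2 * d x 1 * pd 2 (fun y => a y 1) x +
            d x 2 * d x 2 * pd 2 (fun y => a y 2) x))) +
        (d x 0 * (b x 1 * curl v x 2 - b x 2 * curl v x 1) + d x 1 * (b x 2 * curl v x 0 - b x 0 * curl v x 2) +
          d x 2 * (b x 0 * curl v x 1 - b x 1 * curl v x 0)) := by
      simp only [Fin.sum_univ_three, hD, hgd, hhd, x0, x1, x2, y0, y1, y2]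
      rw [← ha]
      simp only [hAv, w0, w1, w2, w0', w1', w2', hpd]
      simp only [hdx]
      ring
    rw [e]
    simp only [Fin.sum_univ_three] at t2 t4 t5 ⊢
    have e2 : (4 * L * (η / 2 * (d x 0 ^ 2 + d x 1 ^ 2 + d x 2 ^ 2) +
        1 / (2 * η) * (b x 0 ^ 2 + b x 1 ^ 2 + b x 2 ^ 2))) =
        2 * L * η * (d x 0 * d x 0 + d x 1 * d x 1 + d x 2 * d x 2) +
          2 * L / η * (b x 0 * b x 0 + b x 1 * b x 1 + b x 2 * b x 2) := by
      field_simp
      ring
    rw [e2] at t5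
    have e3 : 3 * L * (d x 0 ^ 2 + d x 1 ^ 2 + d x 2 ^ 2) + 3 * (δ * L) * (d x 0 ^ 2 + d x 1 ^ 2 + d x 2 ^ 2) +
        (2 * L * η * (d x 0 * d x 0 + d x 1 * d x 1 + d x 2 * d x 2) +
          2 * L / η * (b x 0 * b x 0 + b x 1 * b x 1 + b x 2 * b x 2)) =
        ((3 + 3 * δ) * L + 2 * L * η) * (d x 0 * d x 0 + d x 1 * d x 1 + d x 2 * d x 2) +
          2 * L / η * (b x 0 * b x 0 + b x 1 * b x 1 + b x 2 * b x 2) := by
      ring
    have t6 := add_le_add (add_le_add t2 t4) t5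
    rw [e3] at t6
    linarith only [t6]
  -- integration
  have cD : Continuous (fun x => ∑ i, D x i * (v' x i - v x i)) := by
    have e : (fun x => ∑ i, D x i * (v' x i - v x i)) = fun x => ∑ i, (-(∑ j, v' x j * pd j (fun y => v' y i) x
      - ∑ j, v x j * pd j (fun y => v y i) x) - pd i q x
      + crossProduct (A v' x) (curl v' x) i - crossProduct (A v x) (curl v x) i) * (v' x i - v x i) := by
      funext x
      exact Finset.sum_congr rfl fun i _ => by rw [hD]
    rw [e]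
    have cv : ∀ i, Continuous (fun x => v x i) := fun i => (hci i).continuous
    have cv' : ∀ i, Continuous (fun x => v' x i) := fun i => (hci' i).continuous
    have cA : ∀ i, Continuous (fun x => A v x i) := fun i => (comp_c1 (hA.c1 v hv).c1 i).continuous
    have cA' : ∀ i, Continuous (fun x => A v' x i) := fun i => (comp_c1 (hA.c1 v' hv').c1 i).continuous
    have cc : ∀ i, Continuous (fun x => curl v x i) := by
      intro i
      fin_cases i
      · exact (cont_pd (hci 2) 1).sub (cont_pd (hci 1) 2)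
      · exact (cont_pd (hci 0) 2).sub (cont_pd (hci 2) 0)
      · exact (cont_pd (hci 1) 0).sub (cont_pd (hci 0) 1)
    have cc' : ∀ i, Continuous (fun x => curl v' x i) := by
      intro i
      fin_cases i
      · exact (cont_pd (hci' 2) 1).sub (cont_pd (hci' 1) 2)
      · exact (cont_pd (hci' 0) 2).sub (cont_pd (hci' 2) 0)
      · exact (cont_pd (hci' 1) 0).sub (cont_pd (hci' 0) 1)
    have cx : ∀ (s t : V → V), (∀ i, Continuous (fun x => s x i)) → (∀ i, Continuous (fun x => t x i)) →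
        ∀ i, Continuous (fun x => crossProduct (s x) (t x) i) := by
      intro s t hs ht i
      fin_cases i
      · have : (fun x => crossProduct (s x) (t x) 0) = fun x => s x 1 * t x 2 - s x 2 * t x 1 :=
          funext fun x => (hcross (s x) (t x)).1
        show Continuous (fun x => crossProduct (s x) (t x) 0)
        rw [this]
        exact ((hs 1).mul (ht 2)).sub ((hs 2).mul (ht 1))
      · have : (fun x => crossProduct (s x) (t x) 1) = fun x => s x 2 * t x 0 - s x 0 * t x 2 :=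
          funext fun x => (hcross (s x) (t x)).2.1
        show Continuous (fun x => crossProduct (s x) (t x) 1)
        rw [this]
        exact ((hs 2).mul (ht 0)).sub ((hs 0).mul (ht 2))
      · have : (fun x => crossProduct (s x) (t x) 2) = fun x => s x 0 * t x 1 - s x 1 * t x 0 :=
          funext fun x => (hcross (s x) (t x)).2.2
        show Continuous (fun x => crossProduct (s x) (t x) 2)
        rw [this]
        exact ((hs 0).mul (ht 1)).sub ((hs 1).mul (ht 0))
    refine continuous_finsetSum _ fun i _ => ?_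
    refine Continuous.mul ?_ ((cv' i).sub (cv i))
    refine Continuous.sub (Continuous.add (Continuous.sub (Continuous.neg (Continuous.sub ?_ ?_)) (cont_pd hq i)) ?_) ?_
    · exact continuous_finsetSum _ fun j _ => (cv' j).mul (cont_pd (hci' i) j)
    · exact continuous_finsetSum _ fun j _ => (cv j).mul (cont_pd (hci i) j)
    · exact cx _ _ cA' cc' i
    · exact cx _ _ cA cc i
  have iD := int_cube cD
  have main : ∀ η : ℝ, 0 < η → ∫ x in cube, ∑ i, D x i * (v' x i - v x i) ≤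
      ((3 + 3 * δ) * L + 2 * L * η) * ip d d + 2 * L / η * ip b b := by
    intro η hη
    have j1 : ∫ x in cube, ∑ i, D x i * (v' x i - v x i) ≤ ∫ x in cube,
        (-(∑ i, v' x i * pd i g x) - (∑ i, d x i * pd i q x) + (∑ i, d x i * pd i h x) - (∑ i, a x i * pd i g x) +
        ((3 + 3 * δ) * L + 2 * L * η) * (∑ i, d x i * d x i) + 2 * L / η * ∑ i, b x i * b x i) := by
      refine integral_mono iD ?_ (point η hη)
      exact ((((i1.neg.sub i2).add i3).sub i4).add (i5.const_mul _)).add (i6.const_mul _)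
    refine j1.trans (le_of_eq ?_)
    have k1 : IntegrableOn (fun x => -(∑ i, v' x i * pd i g x)) cube := i1.neg
    have k2 : IntegrableOn (fun x => -(∑ i, v' x i * pd i g x) - (∑ i, d x i * pd i q x)) cube := k1.sub i2
    have k3 : IntegrableOn (fun x => -(∑ i, v' x i * pd i g x) - (∑ i, d x i * pd i q x) +
      (∑ i, d x i * pd i h x)) cube := k2.add i3
    have k4 : IntegrableOn (fun x => -(∑ i, v' x i * pd i g x) - (∑ i, d x i * pd i q x) +
      (∑ i, d x i * pd i h x) - (∑ i, a x i * pd i g x)) cube := k3.sub i4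
    have k5 : IntegrableOn (fun x => ((3 + 3 * δ) * L + 2 * L * η) * (∑ i, d x i * d x i)) cube := i5.const_mul _
    have k6 : IntegrableOn (fun x => 2 * L / η * (∑ i, b x i * b x i)) cube := i6.const_mul _
    have k7 : IntegrableOn (fun x => -(∑ i, v' x i * pd i g x) - (∑ i, d x i * pd i q x) +
      (∑ i, d x i * pd i h x) - (∑ i, a x i * pd i g x) +
      ((3 + 3 * δ) * L + 2 * L * η) * (∑ i, d x i * d x i)) cube := k4.add k5
    rw [integral_add k7 k6, integral_add k4 k5, integral_sub k3 i4, integral_add k2 i3, integral_sub k1 i2,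
      integral_neg, z1, z2, z3, z4, integral_const_mul, integral_const_mul]
    unfold ip
    ring
  have hdd2 : ip d d = ∫ x in cube, ∑ i, (v' x i - v x i) ^ 2 := by
    unfold ip
    congr 1
    funext x
    exact Finset.sum_congr rfl fun i _ => by rw [hdx]; ring
  have hip : 0 ≤ ip d d := by
    rw [hdd2]
    exact integral_nonneg fun x => Finset.sum_nonneg fun i _ => sq_nonneg _
  rw [← hdd2]
  -- the parameter
  refine le_of_forall_pos_le_add fun ε hε => ?_
  obtain ⟨η, hη⟩ : ∃ η : ℝ, η = δ + ε / (4 * (L * ip d d) + 1) := ⟨_, rfl⟩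
  have hLI : 0 ≤ L * ip d d := mul_nonneg hLn hip
  have hc : 0 < ε / (4 * (L * ip d d) + 1) := by positivity
  have hη0 : 0 < η := by linarith
  have h1 := main η hη0
  have h2 : 2 * L / η * ip b b ≤ 2 * L * η * ip d d := by
    have h3 : 2 * L / η * ip b b ≤ 2 * L / η * (δ ^ 2 * ip d d) :=
      mul_le_mul_of_nonneg_left hsmall (by positivity)
    have h4 : δ ^ 2 ≤ η ^ 2 := pow_le_pow_left₀ hδ (by linarith) 2
    calc 2 * L / η * ip b b ≤ 2 * L / η * (δ ^ 2 * ip d d) := h3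
      _ ≤ 2 * L / η * (η ^ 2 * ip d d) :=
          mul_le_mul_of_nonneg_left (mul_le_mul_of_nonneg_right h4 hip) (by positivity)
      _ = 2 * L * η * ip d d := by
          field_simp
  have h5 : 4 * (L * ip d d) * (ε / (4 * (L * ip d d) + 1)) ≤ ε := by
    rw [mul_div_assoc', div_le_iff₀ (by positivity)]
    nlinarith
  have h6 : ((3 + 3 * δ) * L + 2 * L * η) * ip d d + 2 * L * η * ip d d =
      (3 + 7 * δ) * L * ip d d + 4 * (L * ip d d) * (ε / (4 * (L * ip d d) + 1)) := by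
    rw [hη]
    ring
  linarith

end Pool.Agent.Q275.SP
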